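import Mathlib

open Filter Topology

namespace Pool.Agent.Lib.MP_7f7e2f_an

/-- A chain: consecutive intervals `[n k, n (k+1))` together with coefficients `a` such that on each
interval the `ℓ₁`-mass is at most one and the coefficients are flat. -/
structure Chain where
  n : ℕ → ℕ
  a : ℕ → ℝ
  mono : StrictMono n
  l1 : ∀ k, ∑ j ∈ Finset.Ico (n k) (n (k + 1)), |a j| ≤ 1
  flat : ∀ k, ∀ j ∈ Finset.Ico (n k) (n (k + 1)), |a j| ≤ 1 / ((n k : ℝ) + 1)

/-- The value of the `k`-th functional of a chain at `f`. -/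
noncomputable def blk (C : Chain) (f : ℕ → ℝ) (k : ℕ) : ℝ :=
  ∑ j ∈ Finset.Ico (C.n k) (C.n (k + 1)), C.a j * f j

/-- The `q`-th power sum of the first `K` functionals. -/
noncomputable def Q (q : ℕ) (C : Chain) (K : ℕ) (f : ℕ → ℝ) : ℝ :=
  ∑ k ∈ Finset.range K, |blk C f k| ^ q

theorem Q_nonneg (q : ℕ) (C : Chain) (K : ℕ) (f : ℕ → ℝ) : 0 ≤ Q q C K f :=
  Finset.sum_nonneg fun _ _ => by positivity

/-- The chain picking out coordinate `n`. -/
noncomputable def unitChain (n : ℕ) : Chain where
  n := fun k => if k = 0 then 0 else n + k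
  a := fun j => if j = n then 1 else 0
  mono := by
    apply strictMono_nat_of_lt_succ
    intro k
    rcases k with _ | k <;> simp
  l1 := by
    intro k
    rcases k with _ | k
    · rw [Finset.sum_eq_single n]
      · simp
      · intro j _ hj
        simp [hj]
      · simp
    · apply le_of_eq_of_le (Finset.sum_eq_zero _) zero_le_one
      intro j hj
      simp at hj
      have : j ≠ n := by omega
      simp [this]
  flat := by
    intro k j hj
    rcases k with _ | k
    · simp
      split_ifs <;> simp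
    · simp at hj
      have : j ≠ n := by omega
      simp only [this, if_false, abs_zero]
      positivity

theorem blk_unitChain (n : ℕ) (f : ℕ → ℝ) : blk (unitChain n) f 0 = f n := by
  simp [blk, unitChain]

/-- The shifted chain. -/
def Chain.shift (C : Chain) (j : ℕ) : Chain where
  n := fun k => C.n (j + k)
  a := C.a
  mono := fun _ _ h => C.mono (by omega)
  l1 := fun k => C.l1 (j + k)
  flat := fun k => C.flat (j + k)

theorem blk_shift (C : Chain) (j : ℕ) (f : ℕ → ℝ) (k : ℕ) :
    blk (C.shift j) f k = blk C f (j + k) := rfl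

open Classical in
/-- The restricted chain. -/
noncomputable def Chain.restr (C : Chain) (S : Set ℕ) : Chain where
  n := C.n
  a := fun j => if j ∈ S then C.a j else 0
  mono := C.mono
  l1 := fun k => le_trans (Finset.sum_le_sum fun j _ => by
    split_ifs
    · exact le_rfl
    · simp) (C.l1 k)
  flat := fun k j hj => by
    split_ifs
    · exact C.flat k j hj
    · simp only [abs_zero]; positivity

theorem blk_restr (C : Chain) (S : Set ℕ) (f : ℕ → ℝ) (k : ℕ) :
    blk (C.restr S) f k = blk C (S.indicator f) k := by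
  classical
  simp only [blk, Chain.restr]
  apply Finset.sum_congr rfl
  intro j _
  by_cases h : j ∈ S <;> simp [h]

theorem Q_restr (q : ℕ) (C : Chain) (S : Set ℕ) (f : ℕ → ℝ) (K : ℕ) :
    Q q (C.restr S) K f = Q q C K (S.indicator f) := by
  simp only [Q, blk_restr]

/-- Concatenation of chains. -/
theorem concat (C : Chain) (K : ℕ) (C' : Chain) (h : C.n K ≤ C'.n 0) :
    ∃ D : Chain, ∀ (q : ℕ) (K' : ℕ) (f : ℕ → ℝ), Q q D (K + K') f = Q q C K f + Q q C' K' f := by
  classical
  set N : ℕ → ℕ := fun k => if k < K then C.n k else C'.n (k - K) with hN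
  set A : ℕ → ℝ := fun j => if j < C.n K then C.a j else if j < C'.n 0 then 0 else C'.a j with hA
  have hmono : StrictMono N := by
    apply strictMono_nat_of_lt_succ
    intro k
    simp only [hN]
    by_cases h1 : k + 1 < K
    · have h2 : k < K := by omega
      rw [if_pos h2, if_pos h1]
      exact C.mono (Nat.lt_succ_self k)
    · by_cases h2 : k < K
      · rw [if_pos h2, if_neg h1]
        have h3 : k + 1 - K = 0 := by omega
        rw [h3]
        have h4 : k + 1 = K := by omega
        calc C.n k < C.n (k + 1) := C.mono (Nat.lt_succ_self k)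
          _ = C.n K := by rw [h4]
          _ ≤ _ := h
      · rw [if_neg h2, if_neg h1]
        apply C'.mono
        omega
  have key : ∀ (G : ℕ → ℝ → ℝ), (∀ j, G j 0 = 0) → ∀ k,
      ∑ j ∈ Finset.Ico (N k) (N (k + 1)), G j (A j) =
        if k < K then ∑ j ∈ Finset.Ico (C.n k) (C.n (k + 1)), G j (C.a j)
        else ∑ j ∈ Finset.Ico (C'.n (k - K)) (C'.n (k - K + 1)), G j (C'.a j) := by
    intro G hG k
    by_cases h2 : k < K
    · rw [if_pos h2]
      by_cases h1 : k + 1 < K
      · simp only [hN, if_pos h2, if_pos h1]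
        apply Finset.sum_congr rfl
        intro j hj
        rw [Finset.mem_Ico] at hj
        have : j < C.n K := lt_of_lt_of_le hj.2 (C.mono.monotone h1.le)
        simp only [hA, if_pos this]
      · have h4 : k + 1 = K := by omega
        have h3 : k + 1 - K = 0 := by omega
        simp only [hN, if_pos h2, if_neg h1, h3]
        have h5 : C.n k ≤ C.n (k + 1) := C.mono.monotone (Nat.le_succ k)
        have h6 : C.n (k + 1) ≤ C'.n 0 := by rw [h4]; exact h
        rw [← Finset.sum_Ico_consecutive _ h5 h6]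
        have h7 : ∑ j ∈ Finset.Ico (C.n (k + 1)) (C'.n 0), G j (A j) = 0 := by
          apply Finset.sum_eq_zero
          intro j hj
          rw [Finset.mem_Ico, h4] at hj
          have : ¬ j < C.n K := by omega
          simp only [hA, if_neg this, if_pos hj.2, hG]
        rw [h7, add_zero]
        apply Finset.sum_congr rfl
        intro j hj
        rw [Finset.mem_Ico, h4] at hj
        simp only [hA, if_pos hj.2]
    · have h1 : ¬ k + 1 < K := by omega
      rw [if_neg h2]
      simp only [hN, if_neg h2, if_neg h1]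
      have h3 : k + 1 - K = k - K + 1 := by omega
      rw [h3]
      apply Finset.sum_congr rfl
      intro j hj
      rw [Finset.mem_Ico] at hj
      have h4 : C'.n 0 ≤ j := le_trans (C'.mono.monotone (Nat.zero_le _)) hj.1
      have h5 : ¬ j < C.n K := by omega
      have h6 : ¬ j < C'.n 0 := by omega
      simp only [hA, if_neg h5, if_neg h6]
  have hl1 : ∀ k, ∑ j ∈ Finset.Ico (N k) (N (k + 1)), |A j| ≤ 1 := by
    intro k
    have := key (fun _ x => |x|) (fun _ => abs_zero) k
    rw [this]
    split_ifs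
    · exact C.l1 k
    · exact C'.l1 (k - K)
  have hflat : ∀ k, ∀ j ∈ Finset.Ico (N k) (N (k + 1)), |A j| ≤ 1 / ((N k : ℝ) + 1) := by
    intro k j hj
    rw [Finset.mem_Ico] at hj
    by_cases h2 : k < K
    · have hNk : N k = C.n k := by simp only [hN, if_pos h2]
      rw [hNk]
      by_cases h7 : j < C.n K
      · simp only [hA, if_pos h7]
        apply C.flat k j
        rw [Finset.mem_Ico]
        refine ⟨by rw [← hNk]; exact hj.1, ?_⟩
        by_cases h1 : k + 1 < K
        · have : N (k + 1) = C.n (k + 1) := by simp only [hN, if_pos h1]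
          rw [← this]; exact hj.2
        · have h4 : k + 1 = K := by omega
          rw [h4]; exact h7
      · by_cases h8 : j < C'.n 0
        · simp only [hA, if_neg h7, if_pos h8, abs_zero]
          positivity
        · exfalso
          by_cases h1 : k + 1 < K
          · have e1 : N (k + 1) = C.n (k + 1) := by simp only [hN, if_pos h1]
            have e2 : C.n (k + 1) ≤ C.n K := C.mono.monotone h1.le
            omega
          · have e1 : N (k + 1) = C'.n 0 := by
              have h3 : k + 1 - K = 0 := by omega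
              simp only [hN, if_neg h1, h3]
            omega
    · have hNk : N k = C'.n (k - K) := by simp only [hN, if_neg h2]
      have h1 : ¬ k + 1 < K := by omega
      have hNk' : N (k + 1) = C'.n (k - K + 1) := by
        have h3 : k + 1 - K = k - K + 1 := by omega
        simp only [hN, if_neg h1, h3]
      rw [hNk]
      have h4 : C'.n 0 ≤ j := by
        have : C'.n 0 ≤ C'.n (k - K) := C'.mono.monotone (Nat.zero_le _)
        omega
      have h5 : ¬ j < C.n K := by omega
      have h6 : ¬ j < C'.n 0 := by omega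
      simp only [hA, if_neg h5, if_neg h6]
      apply C'.flat (k - K) j
      rw [Finset.mem_Ico]
      omega
  refine ⟨⟨N, A, hmono, hl1, hflat⟩, ?_⟩
  intro q K' f
  have hblk : ∀ k, blk ⟨N, A, hmono, hl1, hflat⟩ f k =
      if k < K then blk C f k else blk C' f (k - K) := by
    intro k
    simp only [blk]
    exact key (fun j x => x * f j) (fun j => zero_mul _) k
  simp only [Q]
  rw [Finset.sum_range_add]
  congr 1
  · apply Finset.sum_congr rfl
    intro k hk
    rw [Finset.mem_range] at hk
    rw [hblk, if_pos hk]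
  · apply Finset.sum_congr rfl
    intro k _
    have h1 : ¬ K + k < K := by omega
    have h2 : K + k - K = k := by omega
    rw [hblk, if_neg h1, h2]

/-- Splitting lemma for sums of nonnegative terms. -/
theorem split (t : ℕ → ℝ) (ht : ∀ k, 0 ≤ t k) (j K : ℕ) (B : ℝ) (hB0 : 0 ≤ B)
    (hB : ∀ k, k + 1 = j → t k ≤ B) :
    ∑ k ∈ Finset.range K, t k ≤
      ∑ k ∈ Finset.range (j - 1), t k + B + ∑ m ∈ Finset.range K, t (j + m) := by
  have h1 : ∑ k ∈ Finset.range K, t k ≤ ∑ k ∈ Finset.range (j + K), t k := by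
    apply Finset.sum_le_sum_of_subset_of_nonneg
    · intro x hx
      rw [Finset.mem_range] at hx ⊢
      omega
    · intro k _ _
      exact ht k
  rw [Finset.sum_range_add] at h1
  refine h1.trans (add_le_add_left ?_ _)
  rcases j with _ | j
  · simpa using hB0
  · rw [Finset.sum_range_succ]
    simpa using hB j rfl

/-- The first block end beyond `N`. -/
theorem exists_first (C : Chain) (N : ℕ) : ∃ j : ℕ, N ≤ C.n j ∧ ∀ k, k + 1 ≤ j → C.n k < N := by
  classical
  have hex : ∃ j, N ≤ C.n j := ⟨N, C.mono.id_le N⟩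
  refine ⟨Nat.find hex, Nat.find_spec hex, fun k hk => ?_⟩
  have := Nat.find_min hex (show k < Nat.find hex by omega)
  omega


/-- `f` has gauge at most `M`. -/
def Bd (q : ℕ) (f : ℕ → ℝ) (M : ℝ) : Prop := ∀ C K, Q q C K f ≤ M ^ q

theorem Bd.indicator {q : ℕ} {f : ℕ → ℝ} {M : ℝ} (h : Bd q f M) (S : Set ℕ) :
    Bd q (S.indicator f) M := by
  intro C K
  rw [← Q_restr]
  exact h _ _

theorem Bd.abs_le {q : ℕ} (hq : 1 ≤ q) {f : ℕ → ℝ} {M : ℝ} (hM : 0 ≤ M) (h : Bd q f M) (n : ℕ) :
    |f n| ≤ M := by
  have := h (unitChain n) 1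
  simp only [Q, Finset.sum_range_one, blk_unitChain] at this
  exact le_of_pow_le_pow_left₀ (by omega) hM this

theorem Bd.mono {q : ℕ} {f : ℕ → ℝ} {M M' : ℝ} (hM : 0 ≤ M) (h : Bd q f M) (hMM : M ≤ M') :
    Bd q f M' := fun C K => (h C K).trans (pow_le_pow_left₀ hM hMM q)

theorem blk_neg (C : Chain) (f : ℕ → ℝ) (k : ℕ) : blk C (-f) k = - blk C f k := by
  simp [blk]

theorem abs_blk_le (C : Chain) (f : ℕ → ℝ) (k : ℕ) (B : ℝ) (hB : 0 ≤ B)
    (h : ∀ j ∈ Finset.Ico (C.n k) (C.n (k + 1)), |f j| ≤ B) : |blk C f k| ≤ B := by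
  calc |blk C f k| ≤ ∑ j ∈ Finset.Ico (C.n k) (C.n (k + 1)), |C.a j * f j| :=
        Finset.abs_sum_le_sum_abs _ _
    _ ≤ ∑ j ∈ Finset.Ico (C.n k) (C.n (k + 1)), |C.a j| * B := by
        apply Finset.sum_le_sum
        intro j hj
        rw [abs_mul]
        exact mul_le_mul_of_nonneg_left (h j hj) (abs_nonneg _)
    _ = (∑ j ∈ Finset.Ico (C.n k) (C.n (k + 1)), |C.a j|) * B := by rw [Finset.sum_mul]
    _ ≤ 1 * B := mul_le_mul_of_nonneg_right (C.l1 k) hB
    _ = B := one_mul B

theorem blk_congr (C : Chain) {f g : ℕ → ℝ} (k : ℕ)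
    (h : ∀ j ∈ Finset.Ico (C.n k) (C.n (k + 1)), f j = g j) : blk C f k = blk C g k := by
  simp only [blk]
  apply Finset.sum_congr rfl
  intro j hj
  rw [h j hj]

theorem blk_zero (C : Chain) (k : ℕ) : blk C 0 k = 0 := by simp [blk]

/-- The key estimate: far apart pieces of unit vectors have gauge at most `3 ^ (1/q)`. -/
theorem key_est (q : ℕ) (hq : 1 ≤ q) (f g : ℕ → ℝ) (hf : Bd q f 1) (hg : Bd q g 1) (N : ℕ)
    (C : Chain) (K : ℕ) :
    Q q C K ((Set.Iio N).indicator f - (Set.Ici N).indicator g) ≤ 3 := by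
  obtain ⟨j0, hj1, hj2⟩ := exists_first C N
  set v := (Set.Iio N).indicator f - (Set.Ici N).indicator g with hv
  have hvlo : ∀ j, j < N → v j = f j := by
    intro j hj
    simp [hv, hj]
  have hvhi : ∀ j, N ≤ j → v j = (-g) j := by
    intro j hj
    have : ¬ j < N := by omega
    simp [hv, hj, this]
  have hvabs : ∀ j, |v j| ≤ 1 := by
    intro j
    rcases lt_or_ge j N with h | h
    · rw [hvlo j h]; exact hf.abs_le hq zero_le_one j
    · rw [hvhi j h, Pi.neg_apply, abs_neg]; exact hg.abs_le hq zero_le_one j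
  have h1 := split (fun k => |blk C v k| ^ q) (fun k => by positivity) j0 K 1 zero_le_one (by
    intro k _
    exact pow_le_one₀ (abs_nonneg _) (abs_blk_le C v k 1 zero_le_one (fun j _ => hvabs j)))
  have h2 : ∑ k ∈ Finset.range (j0 - 1), |blk C v k| ^ q ≤ 1 := by
    have h3 := hf C (j0 - 1)
    rw [one_pow] at h3
    refine le_trans (le_of_eq ?_) h3
    apply Finset.sum_congr rfl
    intro k hk
    rw [Finset.mem_range] at hk
    rw [blk_congr C (g := f) k]
    intro j hj
    rw [Finset.mem_Ico] at hj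
    apply hvlo
    have := hj2 (k + 1) (by omega)
    omega
  have h3 : ∑ m ∈ Finset.range K, |blk C v (j0 + m)| ^ q ≤ 1 := by
    have h4 := hg (C.shift j0) K
    rw [one_pow] at h4
    refine le_trans (le_of_eq ?_) h4
    apply Finset.sum_congr rfl
    intro k _
    rw [blk_shift, blk_congr C (g := -g) (j0 + k), blk_neg, abs_neg]
    intro j hj
    rw [Finset.mem_Ico] at hj
    apply hvhi
    have : C.n j0 ≤ C.n (j0 + k) := C.mono.monotone (Nat.le_add_right _ _)
    omega
  simp only [Q]
  linarith

/-- Tails of chains: superadditivity gives smallness. -/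
theorem tail_chain (q : ℕ) (f : ℕ → ℝ) (M : ℝ) (hf : Bd q f M) (η : ℝ) (hη : 0 < η) :
    ∃ N : ℕ, ∀ (C : Chain) (K : ℕ), N ≤ C.n 0 → Q q C K f ≤ η := by
  by_contra hcon
  push Not at hcon
  have hind : ∀ m : ℕ, ∃ (C : Chain) (K : ℕ), m * η ≤ Q q C K f := by
    intro m
    induction m with
    | zero => exact ⟨unitChain 0, 0, by simp [Q]⟩
    | succ m ih =>
      obtain ⟨C, K, h⟩ := ih
      obtain ⟨C', K', h1, h2⟩ := hcon (C.n K)
      obtain ⟨D, hD⟩ := concat C K C' h1
      refine ⟨D, K + K', ?_⟩
      rw [hD]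
      push_cast
      linarith
  obtain ⟨m, hm⟩ := exists_nat_gt (M ^ q / η)
  obtain ⟨C, K, h⟩ := hind m
  have h1 := hf C K
  rw [div_lt_iff₀ hη] at hm
  linarith

/-- Coordinates tend to zero. -/
theorem tail_coord (q : ℕ) (hq : 1 ≤ q) (f : ℕ → ℝ) (M : ℝ) (hf : Bd q f M) (η : ℝ) (hη : 0 < η) :
    ∃ N : ℕ, ∀ j, N ≤ j → |f j| ≤ η := by
  classical
  obtain ⟨N, hN⟩ := tail_chain q f M hf ((η) ^ q) (by positivity)
  by_contra hcon
  push Not at hcon
  have hinf : Set.Infinite {j | N ≤ j ∧ η < |f j|} := by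
    rw [Set.infinite_iff_exists_gt]
    intro a
    obtain ⟨j, hj1, hj2⟩ := hcon (max N (a + 1))
    refine ⟨j, ⟨le_trans (le_max_left _ _) hj1, hj2⟩, ?_⟩
    have := le_trans (le_max_right _ _) hj1
    omega
  obtain ⟨s, hs, hcard⟩ := hinf.exists_subset_card_eq (N + 1)
  obtain ⟨b, hb⟩ : ∃ b, ∀ j ∈ s, j < b := by
    refine ⟨s.sup id + 1, fun j hj => ?_⟩
    have := Finset.le_sup (f := id) hj
    simp only [id] at this
    omega
  have hNb : N < b := by
    have : s.Nonempty := by
      rw [← Finset.card_pos, hcard]; omega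
    obtain ⟨j, hj⟩ := this
    have h1 := (hs hj).1
    have h2 := hb j hj
    omega
  have hc0 : (0 : ℝ) < (N : ℝ) + 1 := by positivity
  set a : ℕ → ℝ := fun j => if j ∈ s then SignType.sign (f j) / ((N : ℝ) + 1) else 0 with ha
  have haabs : ∀ j, |a j| ≤ 1 / ((N : ℝ) + 1) := by
    intro j
    simp only [ha]
    split_ifs
    · rw [abs_div, abs_of_pos hc0]
      apply div_le_div_of_nonneg_right _ hc0.le
      rcases lt_trichotomy (f j) 0 with h | h | h
      · simp [h]
      · simp [h]
      · simp [h]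
    · simp only [abs_zero]; positivity
  have hsub : s ⊆ Finset.Ico N b := by
    intro j hj
    rw [Finset.mem_Ico]
    exact ⟨(hs hj).1, hb j hj⟩
  let C : Chain :=
    { n := fun k => if k = 0 then N else b + (k - 1)
      a := a
      mono := by
        apply strictMono_nat_of_lt_succ
        intro k
        rcases k with _ | k
        · simpa using hNb
        · simp
      l1 := by
        intro k
        rcases k with _ | k
        · simp only [if_true, zero_add, one_ne_zero, if_false, Nat.sub_self, add_zero]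
          rw [← Finset.sum_subset hsub]
          · calc ∑ j ∈ s, |a j| ≤ ∑ j ∈ s, 1 / ((N : ℝ) + 1) := Finset.sum_le_sum fun j _ => haabs j
              _ = 1 := by
                rw [Finset.sum_const, hcard, nsmul_eq_mul]
                push_cast
                field_simp
          · intro j _ hj
            simp [ha, hj]
        · apply le_of_eq_of_le (Finset.sum_eq_zero _) zero_le_one
          intro j hj
          simp only [Nat.add_eq_zero_iff, one_ne_zero, and_false, if_false, Finset.mem_Ico] at hj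
          have : j ∉ s := fun h => by have := hb j h; omega
          simp [ha, this]
      flat := by
        intro k j hj
        rcases k with _ | k
        · simpa using haabs j
        · simp only [Nat.add_eq_zero_iff, one_ne_zero, and_false, if_false, Finset.mem_Ico] at hj
          have : j ∉ s := fun h => by have := hb j h; omega
          simp only [ha, this, if_false, abs_zero]
          positivity }
  have h1 := hN C 1 le_rfl
  have h2 : η < blk C f 0 := by
    have h3 : blk C f 0 = ∑ j ∈ s, |f j| / ((N : ℝ) + 1) := by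
      simp only [blk, C, if_true, zero_add, one_ne_zero, if_false, Nat.sub_self, add_zero]
      rw [← Finset.sum_subset hsub]
      · apply Finset.sum_congr rfl
        intro j hj
        simp only [ha, hj, if_true]
        rw [div_mul_eq_mul_div, sign_mul_self]
      · intro j _ hj
        simp [ha, hj]
    rw [h3]
    have hne : s.Nonempty := by rw [← Finset.card_pos, hcard]; omega
    calc η = ∑ j ∈ s, η / ((N : ℝ) + 1) := by
          rw [Finset.sum_const, hcard, nsmul_eq_mul]; push_cast; field_simp
      _ < _ := by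
          apply Finset.sum_lt_sum_of_nonempty hne
          intro j hj
          exact div_lt_div_of_pos_right (hs hj).2 hc0
  simp only [Q, Finset.sum_range_one] at h1
  have h3 : η ^ q < |blk C f 0| ^ q := by
    apply pow_lt_pow_left₀ _ hη.le (by omega)
    exact lt_of_lt_of_le h2 (le_abs_self _)
  linarith

theorem blk_eq_zero_of_lt (C : Chain) (f : ℕ → ℝ) (N k : ℕ) (hf : ∀ j, j < N → f j = 0)
    (hk : C.n (k + 1) ≤ N) : blk C f k = 0 := by
  rw [blk_congr C (g := 0) k, blk_zero]
  intro j hj
  rw [Finset.mem_Ico] at hj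
  exact hf j (by omega)

/-- Tails have small gauge. -/
theorem tail_bd (q : ℕ) (hq : 1 ≤ q) (f : ℕ → ℝ) (M : ℝ) (hf : Bd q f M) (η : ℝ) (hη : 0 < η) :
    ∃ N : ℕ, Bd q ((Set.Ici N).indicator f) η := by
  obtain ⟨N1, hN1⟩ := tail_chain q f M hf (η ^ q / 2) (by positivity)
  obtain ⟨N2, hN2⟩ := tail_coord q hq f M hf (η / 2) (by positivity)
  refine ⟨max N1 N2, ?_⟩
  intro C K
  obtain ⟨j0, hj1, hj2⟩ := exists_first C (max N1 N2)
  set v := (Set.Ici (max N1 N2)).indicator f with hv
  have hvlo : ∀ j, j < max N1 N2 → v j = 0 := by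
    intro j hj
    have : j ∉ Set.Ici (max N1 N2) := fun h => absurd (Set.mem_Ici.mp h) (not_le.mpr hj)
    simp only [hv, Set.indicator_of_notMem this]
  have hvhi : ∀ j, max N1 N2 ≤ j → v j = f j := by
    intro j hj
    have : j ∈ Set.Ici (max N1 N2) := hj
    simp only [hv, Set.indicator_of_mem this]
  have hvabs : ∀ j, |v j| ≤ η / 2 := by
    intro j
    rcases lt_or_ge j (max N1 N2) with h | h
    · rw [hvlo j h, abs_zero]; positivity
    · rw [hvhi j h]; exact hN2 j (le_trans (le_max_right _ _) h)
  have h1 := split (fun k => |blk C v k| ^ q) (fun k => by positivity) j0 K ((η / 2) ^ q)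
    (by positivity) (by
    intro k _
    exact pow_le_pow_left₀ (abs_nonneg _)
      (abs_blk_le C v k (η / 2) (by positivity) (fun j _ => hvabs j)) q)
  have h2 : ∑ k ∈ Finset.range (j0 - 1), |blk C v k| ^ q = 0 := by
    apply Finset.sum_eq_zero
    intro k hk
    rw [Finset.mem_range] at hk
    rw [blk_eq_zero_of_lt C v _ k hvlo (hj2 (k + 1) (by omega)).le, abs_zero, zero_pow (by omega)]
  have h3 : ∑ m ∈ Finset.range K, |blk C v (j0 + m)| ^ q ≤ η ^ q / 2 := by
    have h4 := hN1 (C.shift j0) K (le_trans (le_max_left _ _) hj1)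
    refine le_trans (le_of_eq ?_) h4
    apply Finset.sum_congr rfl
    intro k _
    rw [blk_shift, blk_congr C (g := f) (j0 + k)]
    intro j hj
    rw [Finset.mem_Ico] at hj
    apply hvhi
    have : C.n j0 ≤ C.n (j0 + k) := C.mono.monotone (Nat.le_add_right _ _)
    omega
  have h4 : (η / 2) ^ q ≤ η ^ q / 2 := by
    rw [div_pow]
    apply div_le_div_of_nonneg_left (by positivity) (by norm_num)
    calc (2 : ℝ) = 2 ^ 1 := (pow_one 2).symm
      _ ≤ 2 ^ q := pow_le_pow_right₀ (by norm_num) hq
  simp only [Q]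
  linarith

/-- Finitely supported vectors: gauge bounded by the `ℓ₁`-norm. -/
theorem fin_bd (q : ℕ) (hq : 1 ≤ q) (f : ℕ → ℝ) (s : Finset ℕ) (hf : ∀ j, j ∉ s → f j = 0) :
    Bd q f (∑ j ∈ s, |f j|) := by
  intro C K
  set S := ∑ j ∈ s, |f j| with hS
  have hS0 : 0 ≤ S := Finset.sum_nonneg fun _ _ => abs_nonneg _
  have ha : ∀ k, ∀ j ∈ Finset.Ico (C.n k) (C.n (k + 1)), |C.a j| ≤ 1 := by
    intro k j hj
    exact (Finset.single_le_sum (f := fun j => |C.a j|) (fun _ _ => abs_nonneg _) hj).trans (C.l1 k)
  have hb : ∀ k, |blk C f k| ≤ ∑ j ∈ Finset.Ico (C.n k) (C.n (k + 1)), |f j| := by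
    intro k
    calc |blk C f k| ≤ ∑ j ∈ Finset.Ico (C.n k) (C.n (k + 1)), |C.a j * f j| :=
          Finset.abs_sum_le_sum_abs _ _
      _ ≤ _ := by
          apply Finset.sum_le_sum
          intro j hj
          rw [abs_mul]
          calc |C.a j| * |f j| ≤ 1 * |f j| := mul_le_mul_of_nonneg_right (ha k j hj) (abs_nonneg _)
            _ = _ := one_mul _
  have hfin : ∀ t : Finset ℕ, ∑ j ∈ t, |f j| ≤ S := by
    intro t
    calc ∑ j ∈ t, |f j| = ∑ j ∈ t ∩ s, |f j| := by
          symm
          apply Finset.sum_subset Finset.inter_subset_left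
          intro j hj hj2
          have : j ∉ s := fun h => hj2 (Finset.mem_inter.mpr ⟨hj, h⟩)
          rw [hf j this, abs_zero]
      _ ≤ S := Finset.sum_le_sum_of_subset_of_nonneg Finset.inter_subset_right
          fun _ _ _ => abs_nonneg _
  have htot : ∀ K, ∑ k ∈ Finset.range K, ∑ j ∈ Finset.Ico (C.n k) (C.n (k + 1)), |f j|
      = ∑ j ∈ Finset.Ico (C.n 0) (C.n K), |f j| := by
    intro K
    induction K with
    | zero => simp
    | succ K ih =>
      rw [Finset.sum_range_succ, ih, Finset.sum_Ico_consecutive]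
      · exact C.mono.monotone (Nat.zero_le _)
      · exact C.mono.monotone (Nat.le_succ _)
  obtain ⟨p, rfl⟩ : ∃ p, q = p + 1 := ⟨q - 1, by omega⟩
  calc Q (p + 1) C K f ≤ ∑ k ∈ Finset.range K,
        S ^ p * ∑ j ∈ Finset.Ico (C.n k) (C.n (k + 1)), |f j| := by
        apply Finset.sum_le_sum
        intro k _
        rw [pow_succ]
        apply mul_le_mul _ (hb k) (abs_nonneg _) (by positivity)
        exact pow_le_pow_left₀ (abs_nonneg _) ((hb k).trans (hfin _)) p
    _ = S ^ p * ∑ j ∈ Finset.Ico (C.n 0) (C.n K), |f j| := by rw [← Finset.mul_sum, htot]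
    _ ≤ S ^ p * S := mul_le_mul_of_nonneg_left (hfin _) (by positivity)
    _ = S ^ (p + 1) := (pow_succ S p).symm

/-- Telescoping bound. -/
theorem tele (N K : ℕ) (hN : 1 ≤ N) :
    ∑ m ∈ Finset.range K, (1 / ((N : ℝ) + m + 1)) ^ 2 ≤ (1 : ℝ) / N := by
  have h : ∑ m ∈ Finset.range K, (1 / ((N : ℝ) + m + 1)) ^ 2 ≤ (1 : ℝ) / N - 1 / ((N : ℝ) + K) := by
    induction K with
    | zero => simp
    | succ K ih =>
      rw [Finset.sum_range_succ]
      have hN' : (1 : ℝ) ≤ N := by exact_mod_cast hN
      have hK : (0 : ℝ) ≤ K := by positivity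
      have h1 : (1 / ((N : ℝ) + K + 1)) ^ 2 ≤ (1 : ℝ) / ((N : ℝ) + K) - 1 / ((N : ℝ) + (K + 1 : ℕ)) := by
        push_cast
        rw [div_sub_div _ _ (by positivity) (by positivity), div_pow, one_pow,
          div_le_div_iff₀ (by positivity) (by positivity)]
        nlinarith
      linarith
  have : 0 ≤ 1 / ((N : ℝ) + K) := by positivity
  linarith

/-- Finitely supported vectors far out have gauge close to the sup norm. -/
theorem spread_est (q : ℕ) (hq : 2 ≤ q) (f : ℕ → ℝ) (N : ℕ) (hN : 1 ≤ N) (A S : ℝ) (hA : 0 ≤ A)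
    (hS : 0 ≤ S) (hlo : ∀ j, j < N → f j = 0) (hfA : ∀ j, |f j| ≤ A)
    (hfS : ∀ t : Finset ℕ, ∑ j ∈ t, |f j| ≤ S) (C : Chain) (K : ℕ) :
    Q q C K f ≤ A ^ q + S ^ q / N := by
  obtain ⟨j0, hj1, hj2⟩ := exists_first C N
  have h1 := split (fun k => |blk C f k| ^ q) (fun k => by positivity) j0 K (A ^ q)
    (by positivity) (by
    intro k _
    exact pow_le_pow_left₀ (abs_nonneg _) (abs_blk_le C f k A hA (fun j _ => hfA j)) q)
  have h2 : ∑ k ∈ Finset.range (j0 - 1), |blk C f k| ^ q = 0 := by
    apply Finset.sum_eq_zero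
    intro k hk
    rw [Finset.mem_range] at hk
    rw [blk_eq_zero_of_lt C f _ k hlo (hj2 (k + 1) (by omega)).le, abs_zero, zero_pow (by omega)]
  have hn : ∀ m, N + m ≤ C.n (j0 + m) := by
    intro m
    induction m with
    | zero => simpa using hj1
    | succ m ih =>
      have : C.n (j0 + m) < C.n (j0 + (m + 1)) := C.mono (by omega)
      omega
  have h3 : ∑ m ∈ Finset.range K, |blk C f (j0 + m)| ^ q ≤ S ^ q / N := by
    calc ∑ m ∈ Finset.range K, |blk C f (j0 + m)| ^ q
        ≤ ∑ m ∈ Finset.range K, S ^ q * (1 / ((N : ℝ) + m + 1)) ^ 2 := by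
          apply Finset.sum_le_sum
          intro m _
          have hb : |blk C f (j0 + m)| ≤ (1 / ((N : ℝ) + m + 1)) * S := by
            calc |blk C f (j0 + m)|
                ≤ ∑ j ∈ Finset.Ico (C.n (j0 + m)) (C.n (j0 + m + 1)), |C.a j * f j| :=
                  Finset.abs_sum_le_sum_abs _ _
              _ ≤ ∑ j ∈ Finset.Ico (C.n (j0 + m)) (C.n (j0 + m + 1)),
                    (1 / ((N : ℝ) + m + 1)) * |f j| := by
                  apply Finset.sum_le_sum
                  intro j hj
                  rw [abs_mul]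
                  apply mul_le_mul_of_nonneg_right _ (abs_nonneg _)
                  refine (C.flat _ j hj).trans ?_
                  apply one_div_le_one_div_of_le (by positivity)
                  have : ((N + m : ℕ) : ℝ) ≤ C.n (j0 + m) := by exact_mod_cast hn m
                  push_cast at this
                  linarith
              _ = (1 / ((N : ℝ) + m + 1)) * ∑ j ∈ Finset.Ico (C.n (j0 + m)) (C.n (j0 + m + 1)),
                    |f j| := by rw [Finset.mul_sum]
              _ ≤ _ := mul_le_mul_of_nonneg_left (hfS _) (by positivity)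
          have hle1 : (1 / ((N : ℝ) + m + 1)) ≤ 1 := by
            rw [div_le_one (by positivity)]
            have : (0 : ℝ) ≤ (N : ℝ) + m := by positivity
            linarith
          calc |blk C f (j0 + m)| ^ q ≤ ((1 / ((N : ℝ) + m + 1)) * S) ^ q :=
                pow_le_pow_left₀ (abs_nonneg _) hb q
            _ = S ^ q * (1 / ((N : ℝ) + m + 1)) ^ q := by rw [mul_pow]; ring
            _ ≤ S ^ q * (1 / ((N : ℝ) + m + 1)) ^ 2 := by
                apply mul_le_mul_of_nonneg_left _ (by positivity)
                exact pow_le_pow_of_le_one (by positivity) hle1 hq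
      _ = S ^ q * ∑ m ∈ Finset.range K, (1 / ((N : ℝ) + m + 1)) ^ 2 := by rw [Finset.mul_sum]
      _ ≤ S ^ q * (1 / N) := mul_le_mul_of_nonneg_left (tele N K hN) (by positivity)
      _ = _ := by ring
  simp only [Q]
  linarith

end Pool.Agent.Lib.MP_7f7e2f_an
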