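import Mathlib

namespace Pool.Agent.Lib.MP_7f7e2f_an

/-- The separation `inf_{n ≠ m} ‖x n - x m‖` of a sequence. -/
noncomputable def sep {X : Type*} [NormedAddCommGroup X] (x : ℕ → X) : ℝ :=
  sInf {r | ∃ n m : ℕ, n ≠ m ∧ r = ‖x n - x m‖}

/-- The symmetric separation `inf_{n ≠ m} min (‖x n - x m‖, ‖x n + x m‖)` of a sequence. -/
noncomputable def symSep {X : Type*} [NormedAddCommGroup X] (x : ℕ → X) : ℝ :=
  sInf {r | ∃ n m : ℕ, n ≠ m ∧ r = min ‖x n - x m‖ ‖x n + x m‖}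

/-- The Kottman constant `K(X)`: supremum of the separations of the sequences in the closed unit
ball of `X`. -/
noncomputable def kottman (X : Type*) [NormedAddCommGroup X] : ℝ :=
  sSup {r | ∃ x : ℕ → X, (∀ n, ‖x n‖ ≤ 1) ∧ r = sep x}

/-- The symmetric Kottman constant `K^s(X)`: supremum of the symmetric separations of the
sequences in the closed unit ball of `X`. -/
noncomputable def symKottman (X : Type*) [NormedAddCommGroup X] : ℝ :=
  sSup {r | ∃ x : ℕ → X, (∀ n, ‖x n‖ ≤ 1) ∧ r = symSep x}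

/-- `Z` is a spreading model of `X`: there are a normalized sequence `y` in `X` with no Cauchy
subsequence and a sequence `e` in `Z` with dense linear span such that for all scalars
`a 0, …, a (k-1)` the norm `‖∑ a i • e i‖` is the limit of `‖∑ a i • y (n i)‖` as `n 0 → ∞`,
`n 0 < n 1 < … < n (k-1)`. -/
def IsSpreadingModel (X Z : Type*) [NormedAddCommGroup X] [NormedSpace ℝ X]
    [NormedAddCommGroup Z] [NormedSpace ℝ Z] : Prop :=
  ∃ (y : ℕ → X) (e : ℕ → Z),
    (∀ n, ‖y n‖ = 1) ∧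
    (∀ φ : ℕ → ℕ, StrictMono φ → ¬ CauchySeq (y ∘ φ)) ∧
    (∀ (k : ℕ) (a : Fin k → ℝ) (ε : ℝ), 0 < ε → ∃ N : ℕ, ∀ n : Fin k → ℕ, StrictMono n →
      (∀ i, N ≤ n i) → |‖∑ i, a i • y (n i)‖ - ‖∑ i, a i • e i‖| < ε) ∧
    Dense (Submodule.span ℝ (Set.range e) : Set Z)

end Pool.Agent.Lib.MP_7f7e2f_an
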