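import Pool.Agent.Lib.MP_7f7e2f_an.Chains

open Filter Topology
open scoped ENNReal

namespace Pool.Agent.Lib.MP_7f7e2f_an

/-- The finite-dimensional fibres. -/
abbrev Fib (q : ℕ) (i : Chain × ℕ) : Type := PiLp (q : ℝ≥0∞) (fun _ : Fin i.2 => ℝ)

variable (q : ℕ) [hq1 : Fact (1 ≤ (q : ℝ≥0∞))]

/-- The ambient `ℓ_∞`-sum. -/
abbrev Amb : Type := lp (fun i : Chain × ℕ => Fib q i) ∞

/-- Coordinates. -/
noncomputable def ev (u : Amb q) (n : ℕ) : ℝ := (u (unitChain n, 1)) (0 : Fin 1)

theorem ev_add (u v : Amb q) : ev q (u + v) = ev q u + ev q v := by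
  ext n
  simp [ev]

theorem ev_sub (u v : Amb q) : ev q (u - v) = ev q u - ev q v := by
  ext n
  simp [ev]

theorem ev_smul (c : ℝ) (u : Amb q) : ev q (c • u) = c • ev q u := by
  ext n
  simp [ev]

theorem blk_add (C : Chain) (f g : ℕ → ℝ) (k : ℕ) : blk C (f + g) k = blk C f k + blk C g k := by
  simp [blk, mul_add, Finset.sum_add_distrib]

theorem blk_smul (C : Chain) (c : ℝ) (f : ℕ → ℝ) (k : ℕ) : blk C (c • f) k = c * blk C f k := by
  simp only [blk, Finset.mul_sum, Pi.smul_apply, smul_eq_mul]
  apply Finset.sum_congr rfl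
  intro j _
  ring

/-- The space as a subspace of the ambient sum. -/
noncomputable def sub : Submodule ℝ (Amb q) where
  carrier := {u | ∀ (i : Chain × ℕ) (k : Fin i.2), (u i) k = blk i.1 (ev q u) k}
  add_mem' := by
    intro u v hu hv i k
    have h1 : ((u + v : Amb q) i) k = (u i) k + (v i) k := by simp
    rw [h1, hu i k, hv i k, ev_add, blk_add]
  zero_mem' := by
    intro i k
    have h1 : ev q 0 = 0 := by ext n; simp [ev]
    rw [h1, blk_zero]
    simp
  smul_mem' := by
    intro c u hu i k
    have h1 : ((c • u : Amb q) i) k = c * (u i) k := by simp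
    rw [h1, hu i k, ev_smul, blk_smul]

theorem continuous_coord (i : Chain × ℕ) (k : Fin i.2) : Continuous fun u : Amb q => (u i) k := by
  have h1 : Continuous fun u : Amb q => (u : ∀ i, Fib q i) := lp.uniformContinuous_coe.continuous
  have h2 : Continuous fun u : Amb q => u i := (continuous_apply i).comp h1
  exact (PiLp.continuous_apply _ _ k).comp h2

theorem isClosed_sub : IsClosed ((sub q : Submodule ℝ (Amb q)) : Set (Amb q)) := by
  have : ((sub q : Submodule ℝ (Amb q)) : Set (Amb q)) =
      ⋂ (i : Chain × ℕ), ⋂ (k : Fin i.2), {u : Amb q | (u i) k = blk i.1 (ev q u) k} := by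
    ext u
    simp [sub]
  rw [this]
  apply isClosed_iInter
  intro i
  apply isClosed_iInter
  intro k
  apply isClosed_eq (continuous_coord q i k)
  simp only [blk]
  apply continuous_finsetSum
  intro j _
  apply continuous_const.mul
  exact continuous_coord q (unitChain j, 1) 0

/-- The Banach space. -/
abbrev Xq : Type := sub q

instance : CompleteSpace (Xq q) := (isClosed_sub q).completeSpace_coe

/-- Coordinates of an element of the space. -/
noncomputable def crd (u : Xq q) : ℕ → ℝ := ev q u.1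

theorem crd_add (u v : Xq q) : crd q (u + v) = crd q u + crd q v := ev_add q _ _
theorem crd_sub (u v : Xq q) : crd q (u - v) = crd q u - crd q v := ev_sub q _ _
theorem crd_smul (c : ℝ) (u : Xq q) : crd q (c • u) = c • crd q u := ev_smul q _ _

theorem norm_fib_pow (i : Chain × ℕ) (v : Fib q i) : ‖v‖ ^ q = ∑ k : Fin i.2, |v k| ^ q := by
  have hq0 : q ≠ 0 := by
    rintro rfl
    have := hq1.out
    simp at this
  rw [PiLp.norm_eq_of_nat q rfl, ← Real.rpow_natCast, ← Real.rpow_mul (by positivity),
    one_div, inv_mul_cancel₀ (by exact_mod_cast hq0), Real.rpow_one]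
  simp [Real.norm_eq_abs]

theorem norm_le_iff (u : Xq q) (M : ℝ) (hM : 0 ≤ M) : ‖u‖ ≤ M ↔ Bd q (crd q u) M := by
  have hq0 : q ≠ 0 := by
    rintro rfl
    have := hq1.out
    simp at this
  have h1 : ∀ (C : Chain) (K : ℕ), Q q C K (crd q u) = ‖u.1 (C, K)‖ ^ q := by
    intro C K
    rw [norm_fib_pow, Q, Finset.sum_range]
    apply Finset.sum_congr rfl
    intro k _
    have := u.2 (C, K) k
    rw [this]
    rfl
  constructor
  · intro h C K
    rw [h1]
    apply pow_le_pow_left₀ (norm_nonneg _)
    exact (lp.norm_apply_le_norm ENNReal.top_ne_zero u.1 (C, K)).trans h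
  · intro h
    apply lp.norm_le_of_forall_le hM
    rintro ⟨C, K⟩
    have := h C K
    rw [h1] at this
    exact le_of_pow_le_pow_left₀ hq0 hM this

theorem exists_elt (f : ℕ → ℝ) (M : ℝ) (hM : 0 ≤ M) (hf : Bd q f M) : ∃ u : Xq q, crd q u = f := by
  have hq0 : q ≠ 0 := by
    rintro rfl
    have := hq1.out
    simp at this
  let w : ∀ i : Chain × ℕ, Fib q i := fun i => WithLp.toLp _ fun k : Fin i.2 => blk i.1 f k
  have hw : ∀ i, ‖w i‖ ≤ M := by
    intro i
    apply le_of_pow_le_pow_left₀ hq0 hM
    rw [norm_fib_pow]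
    have := hf i.1 i.2
    rw [Q, Finset.sum_range] at this
    exact this
  have hmem : Memℓp w ∞ := by
    apply memℓp_infty
    refine ⟨M, ?_⟩
    rintro _ ⟨i, rfl⟩
    exact hw i
  let u : Amb q := ⟨w, hmem⟩
  have hev : ev q u = f := by
    ext n
    have : ev q u n = blk (unitChain n) f 0 := rfl
    rw [this, blk_unitChain]
  have hu : u ∈ sub q := by
    intro i k
    rw [hev]
  exact ⟨⟨u, hu⟩, hev⟩

theorem crd_injective : Function.Injective (crd q) := by
  intro u v h
  rw [← sub_eq_zero, ← norm_le_zero_iff, norm_le_iff q _ _ le_rfl, crd_sub, h, sub_self]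
  have hq0 : q ≠ 0 := by
    rintro rfl
    have := hq1.out
    simp at this
  intro C K
  simp [Q, blk_zero, zero_pow hq0]

theorem Bd.add {f g : ℕ → ℝ} {M M' : ℝ} (hM : 0 ≤ M) (hM' : 0 ≤ M') (hf : Bd q f M)
    (hg : Bd q g M') : Bd q (f + g) (M + M') := by
  obtain ⟨u, rfl⟩ := exists_elt q f M hM hf
  obtain ⟨v, rfl⟩ := exists_elt q g M' hM' hg
  rw [← crd_add, ← norm_le_iff q _ _ (by positivity)]
  rw [← norm_le_iff q _ _ hM] at hf
  rw [← norm_le_iff q _ _ hM'] at hg
  exact (norm_add_le u v).trans (add_le_add hf hg)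

omit hq1 in
theorem Bd.neg {q : ℕ} {f : ℕ → ℝ} {M : ℝ} (hf : Bd q f M) : Bd q (-f) M := by
  intro C K
  have := hf C K
  simpa [Q, blk_neg] using this

omit hq1 in
theorem continuous_Q (C : Chain) (K : ℕ) : Continuous fun f : ℕ → ℝ => Q q C K f := by
  simp only [Q, blk]
  apply continuous_finsetSum
  intro k _
  apply Continuous.pow
  apply Continuous.abs
  apply continuous_finsetSum
  intro j _
  exact continuous_const.mul (continuous_apply j)

/-- Bounded sequences in the space have two terms at distance at most `R + η`. -/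
theorem sep_small (hq : 2 ≤ q) (R : ℝ) (hR0 : 0 ≤ R) (hR : 3 ≤ R ^ q) (x : ℕ → Xq q)
    (hx : ∀ n, ‖x n‖ ≤ 1) (η : ℝ) (hη : 0 < η) : ∃ n m, n ≠ m ∧ ‖x n - x m‖ ≤ R + η := by
  have hq1' : 1 ≤ q := by omega
  set f : ℕ → ℕ → ℝ := fun n => crd q (x n) with hf
  have hfb : ∀ n, Bd q (f n) 1 := fun n => (norm_le_iff q _ _ zero_le_one).mp (hx n)
  have hcomp : IsCompact (Set.pi Set.univ (fun _ : ℕ => Set.Icc (-1 : ℝ) 1)) :=
    isCompact_univ_pi fun _ => isCompact_Icc
  obtain ⟨g, -, φ, hφ, hlim⟩ := hcomp.tendsto_subseq (x := f) (fun n j _ => by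
    have := (hfb n).abs_le hq1' zero_le_one j
    exact abs_le.mp this)
  have hgb : Bd q g 1 := by
    intro C K
    have h1 : Tendsto (fun n => Q q C K (f (φ n))) atTop (𝓝 (Q q C K g)) :=
      ((continuous_Q q C K).tendsto g).comp hlim
    exact le_of_tendsto h1 (Eventually.of_forall fun n => hfb _ C K)
  set δ : ℝ := η / 5 with hδ
  have hδ0 : 0 < δ := by positivity
  have hev : ∀ N : ℕ, ∀ᶠ n in atTop, ∑ j ∈ Finset.range N, |f (φ n) j - g j| ≤ δ := by
    intro N
    have h1 : Tendsto (fun n => ∑ j ∈ Finset.range N, |f (φ n) j - g j|) atTop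
        (𝓝 (∑ j ∈ Finset.range N, |g j - g j|)) := by
      apply tendsto_finsetSum
      intro j _
      apply Tendsto.abs
      apply Tendsto.sub_const
      exact (tendsto_pi_nhds.mp hlim) j
    simp only [sub_self, abs_zero, Finset.sum_const_zero] at h1
    exact (h1.eventually_lt_const hδ0).mono fun n hn => hn.le
  obtain ⟨N0, hN0⟩ := tail_bd q hq1' g 1 hgb δ hδ0
  obtain ⟨n, hn⟩ := (hev N0).exists
  obtain ⟨N1', hN1'⟩ := tail_bd q hq1' (f (φ n)) 1 (hfb _) δ hδ0
  set N1 := max N0 N1' with hN1
  obtain ⟨m, hm, hmn⟩ := ((hev N1).and (eventually_gt_atTop n)).exists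
  refine ⟨φ n, φ m, fun h => by have := hφ.injective h; omega, ?_⟩
  set F := f (φ n) with hF
  set G := f (φ m) with hG
  have hA1 : Bd q ((Set.Iio N0).indicator (F - G)) (2 * δ) := by
    have h1 := fin_bd q hq1' ((Set.Iio N0).indicator (F - G)) (Finset.range N0) (by
      intro j hj
      rw [Finset.mem_range] at hj
      exact Set.indicator_of_notMem (s := Set.Iio N0) (fun h => hj h) _)
    refine h1.mono (Finset.sum_nonneg fun _ _ => abs_nonneg _) ?_
    have h2 : ∑ j ∈ Finset.range N0, |G j - g j| ≤ δ := by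
      refine le_trans ?_ hm
      apply Finset.sum_le_sum_of_subset_of_nonneg
      · intro j hj
        rw [Finset.mem_range] at hj ⊢
        exact lt_of_lt_of_le hj (le_max_left _ _)
      · intro _ _ _
        exact abs_nonneg _
    calc ∑ j ∈ Finset.range N0, |(Set.Iio N0).indicator (F - G) j|
        ≤ ∑ j ∈ Finset.range N0, (|F j - g j| + |G j - g j|) := by
          apply Finset.sum_le_sum
          intro j hj
          rw [Finset.mem_range] at hj
          rw [Set.indicator_of_mem (show j ∈ Set.Iio N0 from hj), Pi.sub_apply]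
          have : F j - G j = (F j - g j) - (G j - g j) := by ring
          rw [this]
          exact abs_sub _ _
      _ = ∑ j ∈ Finset.range N0, |F j - g j| + ∑ j ∈ Finset.range N0, |G j - g j| :=
          Finset.sum_add_distrib
      _ ≤ 2 * δ := by linarith
  have hA2 : Bd q ((Set.Ici N1).indicator F) δ := by
    have h1 := hN1'.indicator (Set.Ici N1)
    rw [Set.indicator_indicator] at h1
    have h2 : Set.Ici N1 ∩ Set.Ici N1' = Set.Ici N1 := by
      apply Set.inter_eq_left.mpr
      exact Set.Ici_subset_Ici.mpr (le_max_right _ _)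
    rwa [h2] at h1
  have hA3a : Bd q ((Set.Ico N0 N1).indicator (G - g)) δ := by
    have h1 := fin_bd q hq1' ((Set.Ico N0 N1).indicator (G - g)) (Finset.range N1) (by
      intro j hj
      rw [Finset.mem_range] at hj
      exact Set.indicator_of_notMem (s := Set.Ico N0 N1) (fun h => hj h.2) _)
    refine h1.mono (Finset.sum_nonneg fun _ _ => abs_nonneg _) ?_
    refine le_trans ?_ hm
    apply Finset.sum_le_sum
    intro j _
    by_cases h : j ∈ Set.Ico N0 N1
    · rw [Set.indicator_of_mem h, Pi.sub_apply]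
    · rw [Set.indicator_of_notMem h, abs_zero]; exact abs_nonneg _
  have hA3b : Bd q ((Set.Ico N0 N1).indicator g) δ := by
    have h1 := hN0.indicator (Set.Iio N1)
    rw [Set.indicator_indicator] at h1
    have h2 : Set.Iio N1 ∩ Set.Ici N0 = Set.Ico N0 N1 := by
      ext j
      simp [and_comm]
    rwa [h2] at h1
  have hA4 : Bd q ((Set.Ici N0).indicator ((Set.Iio N1).indicator F - (Set.Ici N1).indicator G)) R := by
    apply Bd.indicator
    intro C K
    exact (key_est q hq1' F G (hfb _) (hfb _) N1 C K).trans hR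
  have hsum := Bd.add q (by positivity) (by positivity) (Bd.add q (by positivity) (by positivity) hA1 hA2)
    (Bd.add q (by positivity) hR0 (Bd.add q (by positivity) (by positivity) hA3a.neg hA3b.neg) hA4)
  rw [norm_le_iff q _ _ (by positivity), crd_sub]
  have e1 : 2 * δ + δ + (δ + δ + R) = R + η := by rw [hδ]; ring
  rw [e1] at hsum
  convert hsum using 1
  ext j
  have hN01 : N0 ≤ N1 := le_max_left _ _
  simp only [Pi.add_apply, Pi.sub_apply, Pi.neg_apply]
  rcases lt_or_ge j N0 with h | h
  · have h1 : j ∈ Set.Iio N0 := h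
    have h2 : j ∉ Set.Ici N1 := fun h' => by have := Set.mem_Ici.mp h'; omega
    have h3 : j ∉ Set.Ico N0 N1 := fun h' => by have := h'.1; omega
    have h4 : j ∉ Set.Ici N0 := fun h' => by have := Set.mem_Ici.mp h'; omega
    rw [Set.indicator_of_mem h1, Set.indicator_of_notMem h2, Set.indicator_of_notMem h3,
      Set.indicator_of_notMem h3, Set.indicator_of_notMem h4]
    simp [hF, hG, hf]
  · have h1 : j ∉ Set.Iio N0 := fun h' => by have := Set.mem_Iio.mp h'; omega
    have h4 : j ∈ Set.Ici N0 := h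
    rcases lt_or_ge j N1 with h' | h'
    · have h2 : j ∉ Set.Ici N1 := fun h'' => by have := Set.mem_Ici.mp h''; omega
      have h3 : j ∈ Set.Ico N0 N1 := ⟨h, h'⟩
      have h5 : j ∈ Set.Iio N1 := h'
      rw [Set.indicator_of_notMem h1, Set.indicator_of_notMem h2, Set.indicator_of_mem h3,
        Set.indicator_of_mem h3, Set.indicator_of_mem h4]
      simp only [Pi.sub_apply]
      rw [Set.indicator_of_mem h5, Set.indicator_of_notMem h2]
      simp only [hF, hG, hf]
      ring
    · have h2 : j ∈ Set.Ici N1 := h'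
      have h3 : j ∉ Set.Ico N0 N1 := fun h'' => by have := h''.2; omega
      have h5 : j ∉ Set.Iio N1 := fun h'' => by have := Set.mem_Iio.mp h''; omega
      rw [Set.indicator_of_notMem h1, Set.indicator_of_mem h2, Set.indicator_of_notMem h3,
        Set.indicator_of_notMem h3, Set.indicator_of_mem h4]
      simp only [Pi.sub_apply]
      rw [Set.indicator_of_notMem h5, Set.indicator_of_mem h2]
      simp only [hF, hG, hf]
      ring

end Pool.Agent.Lib.MP_7f7e2f_an
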