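import Pool.Agent.Lib.MP_7f7e2f_an.Defs
import Pool.Agent.Lib.MP_7f7e2f_an.Space

open Filter Topology
open scoped ENNReal ZeroAtInfty

namespace Pool.Agent.Lib.MP_7f7e2f_an

section general

variable {X : Type*} [NormedAddCommGroup X]

theorem sep_bdd (x : ℕ → X) : BddBelow {r | ∃ n m : ℕ, n ≠ m ∧ r = ‖x n - x m‖} :=
  ⟨0, by rintro _ ⟨n, m, -, rfl⟩; exact norm_nonneg _⟩

theorem symSep_bdd (x : ℕ → X) :
    BddBelow {r | ∃ n m : ℕ, n ≠ m ∧ r = min ‖x n - x m‖ ‖x n + x m‖} :=
  ⟨0, by rintro _ ⟨n, m, -, rfl⟩; exact le_min (norm_nonneg _) (norm_nonneg _)⟩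

theorem sep_le (x : ℕ → X) {n m : ℕ} (h : n ≠ m) : sep x ≤ ‖x n - x m‖ :=
  csInf_le (sep_bdd x) ⟨n, m, h, rfl⟩

theorem symSep_le (x : ℕ → X) {n m : ℕ} (h : n ≠ m) : symSep x ≤ ‖x n - x m‖ :=
  (csInf_le (symSep_bdd x) ⟨n, m, h, rfl⟩).trans (min_le_left _ _)

theorem le_symSep (x : ℕ → X) (c : ℝ) (h : ∀ n m, n ≠ m → c ≤ ‖x n - x m‖ ∧ c ≤ ‖x n + x m‖) :
    c ≤ symSep x := by
  apply le_csInf
  · exact ⟨_, 0, 1, by norm_num, rfl⟩
  · rintro _ ⟨n, m, hnm, rfl⟩
    exact le_min (h n m hnm).1 (h n m hnm).2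

theorem le_sep (x : ℕ → X) (c : ℝ) (h : ∀ n m, n ≠ m → c ≤ ‖x n - x m‖) : c ≤ sep x := by
  apply le_csInf
  · exact ⟨_, 0, 1, by norm_num, rfl⟩
  · rintro _ ⟨n, m, hnm, rfl⟩
    exact h n m hnm

theorem kottman_le (c : ℝ) (h : ∀ x : ℕ → X, (∀ n, ‖x n‖ ≤ 1) → sep x ≤ c) : kottman X ≤ c := by
  apply csSup_le
  · exact ⟨_, fun _ => 0, by simp, rfl⟩
  · rintro _ ⟨x, hx, rfl⟩
    exact h x hx

theorem symKottman_le (c : ℝ) (h : ∀ x : ℕ → X, (∀ n, ‖x n‖ ≤ 1) → symSep x ≤ c) :
    symKottman X ≤ c := by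
  apply csSup_le
  · exact ⟨_, fun _ => 0, by simp, rfl⟩
  · rintro _ ⟨x, hx, rfl⟩
    exact h x hx

theorem dist_le_two (x : ℕ → X) (hx : ∀ n, ‖x n‖ ≤ 1) (n m : ℕ) : ‖x n - x m‖ ≤ 2 := by
  have := norm_sub_le (x n) (x m)
  linarith [hx n, hx m]

theorem kottman_bdd : BddAbove {r | ∃ x : ℕ → X, (∀ n, ‖x n‖ ≤ 1) ∧ r = sep x} := by
  refine ⟨2, ?_⟩
  rintro _ ⟨x, hx, rfl⟩
  exact (sep_le x (show (0 : ℕ) ≠ 1 by norm_num)).trans (dist_le_two x hx _ _)

theorem symKottman_bdd : BddAbove {r | ∃ x : ℕ → X, (∀ n, ‖x n‖ ≤ 1) ∧ r = symSep x} := by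
  refine ⟨2, ?_⟩
  rintro _ ⟨x, hx, rfl⟩
  exact (symSep_le x (show (0 : ℕ) ≠ 1 by norm_num)).trans (dist_le_two x hx _ _)

theorem not_finiteDimensional_of_seq [NormedSpace ℝ X] (x : ℕ → X) (hx : ∀ n, ‖x n‖ ≤ 1)
    (h : ∀ n m, n ≠ m → 1 ≤ ‖x n - x m‖) : ¬ FiniteDimensional ℝ X := by
  intro hfin
  have : ProperSpace X := FiniteDimensional.proper ℝ X
  have hcomp : IsCompact (Metric.closedBall (0 : X) 1) := isCompact_closedBall _ _
  obtain ⟨a, -, φ, hφ, hlim⟩ := hcomp.tendsto_subseq (x := x) (fun n => by simpa using hx n)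
  have hc := hlim.cauchySeq
  rw [Metric.cauchySeq_iff] at hc
  obtain ⟨N, hN⟩ := hc 1 one_pos
  have h1 := hN N le_rfl (N + 1) (Nat.le_succ N)
  have h2 := h (φ N) (φ (N + 1)) (fun h => by have := hφ.injective h; omega)
  rw [Function.comp_apply, Function.comp_apply, dist_eq_norm] at h1
  linarith

end general

section czero

/-- The unit vectors of `c₀`. -/
noncomputable def cz (i : ℕ) : C₀(ℕ, ℝ) where
  toFun := fun j => if j = i then 1 else 0
  continuous_toFun := continuous_of_discreteTopology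
  zero_at_infty' := by
    rw [cocompact_eq_cofinite]
    apply tendsto_nhds_of_eventually_eq
    rw [Filter.eventually_cofinite]
    apply (Set.finite_singleton i).subset
    intro j hj
    by_contra h
    apply hj
    have : j ≠ i := h
    simp [this]

theorem cz_apply (i j : ℕ) : cz i j = if j = i then 1 else 0 := rfl

theorem czero_norm_le (f : C₀(ℕ, ℝ)) (M : ℝ) (hM : 0 ≤ M) : ‖f‖ ≤ M ↔ ∀ j, |f j| ≤ M := by
  rw [← ZeroAtInftyContinuousMap.norm_toBCF_eq_norm, BoundedContinuousFunction.norm_le hM]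
  rfl

theorem czero_abs_le (f : C₀(ℕ, ℝ)) (j : ℕ) : |f j| ≤ ‖f‖ :=
  (czero_norm_le f _ (norm_nonneg f)).mp le_rfl j

theorem czero_sum_apply {ι : Type*} (s : Finset ι) (a : ι → ℝ) (g : ι → ℕ) (j : ℕ) :
    (∑ i ∈ s, a i • cz (g i)) j = ∑ i ∈ s, if j = g i then a i else 0 := by
  classical
  induction s using Finset.induction_on with
  | empty => simp
  | insert i s hi ih =>
    rw [Finset.sum_insert hi, Finset.sum_insert hi, ZeroAtInftyContinuousMap.add_apply, ih,
      ZeroAtInftyContinuousMap.smul_apply, cz_apply]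
    simp

theorem czero_dense : Dense (Submodule.span ℝ (Set.range cz) : Set C₀(ℕ, ℝ)) := by
  classical
  intro f
  rw [Metric.mem_closure_iff]
  intro ε hε
  have h0 : Tendsto f (cocompact ℕ) (𝓝 0) := f.zero_at_infty'
  rw [cocompact_eq_cofinite] at h0
  have h1 : ∀ᶠ j in cofinite, |f j| < ε / 2 := by
    have := h0.abs
    rw [abs_zero] at this
    exact this.eventually_lt_const (by positivity)
  rw [Filter.eventually_cofinite] at h1
  set s := h1.toFinset with hs
  refine ⟨∑ j ∈ s, f j • cz j, ?_, ?_⟩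
  · apply Submodule.sum_mem
    intro j _
    exact Submodule.smul_mem _ _ (Submodule.subset_span ⟨j, rfl⟩)
  · rw [dist_eq_norm]
    refine lt_of_le_of_lt ?_ (half_lt_self hε)
    rw [czero_norm_le _ _ (by positivity)]
    intro j
    rw [ZeroAtInftyContinuousMap.sub_apply, czero_sum_apply s (fun j => f j) (fun j => j) j]
    by_cases hj : j ∈ s
    · rw [Finset.sum_eq_single j]
      · simp; positivity
      · intro i _ hi
        rw [if_neg (Ne.symm hi)]
      · intro h; exact absurd hj h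
    · rw [Finset.sum_eq_zero]
      · rw [sub_zero]
        rw [hs, Set.Finite.mem_toFinset] at hj
        simp only [Set.mem_ofPred_eq, not_not] at hj
        exact hj.le
      · intro i hi
        rw [if_neg]
        rintro rfl
        exact hj hi

theorem czero_sep : ∃ x : ℕ → C₀(ℕ, ℝ), (∀ n, ‖x n‖ ≤ 1) ∧
    ∀ n m, n ≠ m → 2 ≤ ‖x n - x m‖ ∧ 2 ≤ ‖x n + x m‖ := by
  classical
  set x : ℕ → C₀(ℕ, ℝ) := fun n => (∑ i ∈ Finset.range (n + 1), (1 : ℝ) • cz i) - cz (n + 1) with hx
  have hval : ∀ n j, x n j = if j ≤ n then 1 else if j = n + 1 then -1 else 0 := by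
    intro n j
    simp only [hx]
    rw [ZeroAtInftyContinuousMap.sub_apply, czero_sum_apply _ (fun _ => (1 : ℝ)) (fun i => i) j,
      cz_apply, Finset.sum_ite_eq]
    by_cases h1 : j ≤ n
    · have h2 : j ≠ n + 1 := by omega
      have h3 : j < n + 1 := by omega
      simp [h1, h2, h3]
    · have h3 : ¬ j < n + 1 := by omega
      by_cases h2 : j = n + 1
      · simp [h2]
      · simp [h1, h2, h3]
  refine ⟨x, ?_, ?_⟩
  · intro n
    rw [czero_norm_le _ _ zero_le_one]
    intro j
    rw [hval]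
    split_ifs <;> simp
  · intro n m hnm
    constructor
    · wlog h : n < m generalizing n m with H
      · rw [norm_sub_rev]
        exact H m n (Ne.symm hnm) (by omega)
      · have h1 := czero_abs_le (x n - x m) (n + 1)
        rw [ZeroAtInftyContinuousMap.sub_apply, hval, hval] at h1
        have h2 : ¬ n + 1 ≤ n := by omega
        have h3 : n + 1 ≤ m := h
        rw [if_neg h2, if_pos rfl, if_pos h3] at h1
        norm_num at h1
        exact h1
    · have h1 := czero_abs_le (x n + x m) 0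
      rw [ZeroAtInftyContinuousMap.add_apply, hval, hval, if_pos (Nat.zero_le _),
        if_pos (Nat.zero_le _)] at h1
      norm_num at h1
      exact h1

end czero

section main

variable (q : ℕ) [hq1 : Fact (1 ≤ (q : ℝ≥0∞))]

theorem exists_unit_vec (hq : 1 ≤ q) (i : ℕ) :
    ∃ u : Xq q, crd q u = fun j => if j = i then 1 else 0 := by
  apply exists_elt q _ 1 zero_le_one
  have h := fin_bd q hq (fun j => if j = i then (1 : ℝ) else 0) {i} (by
    intro j hj
    rw [Finset.mem_singleton] at hj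
    simp [hj])
  simpa using h

theorem exists_seq (hq : 1 ≤ q) : ∃ y : ℕ → Xq q, ∀ i, crd q (y i) = fun j => if j = i then 1 else 0 := by
  choose y hy using exists_unit_vec q hq
  exact ⟨y, hy⟩

theorem norm_unit (hq : 1 ≤ q) (y : ℕ → Xq q)
    (hy : ∀ i, crd q (y i) = fun j => if j = i then 1 else 0) (i : ℕ) : ‖y i‖ = 1 := by
  apply le_antisymm
  · rw [norm_le_iff q _ _ zero_le_one, hy]
    have h := fin_bd q hq (fun j => if j = i then (1 : ℝ) else 0) {i} (by
      intro j hj
      rw [Finset.mem_singleton] at hj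
      simp [hj])
    simpa using h
  · have h := ((norm_le_iff q (y i) _ (norm_nonneg _)).mp le_rfl).abs_le hq (norm_nonneg _) i
    rw [hy] at h
    simpa using h

theorem dist_unit (hq : 1 ≤ q) (y : ℕ → Xq q)
    (hy : ∀ i, crd q (y i) = fun j => if j = i then 1 else 0) (i j : ℕ) (hij : i ≠ j) :
    1 ≤ ‖y i - y j‖ := by
  have h := ((norm_le_iff q (y i - y j) _ (norm_nonneg _)).mp le_rfl).abs_le hq (norm_nonneg _) i
  rw [crd_sub, hy, hy] at h
  simpa [hij] using h

theorem crd_sum {k : ℕ} (y : ℕ → Xq q)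
    (hy : ∀ i, crd q (y i) = fun j => if j = i then 1 else 0) (a : Fin k → ℝ) (n : Fin k → ℕ) (j : ℕ) :
    crd q (∑ i, a i • y (n i)) j = ∑ i, if j = n i then a i else 0 := by
  classical
  have h : ∀ s : Finset (Fin k), crd q (∑ i ∈ s, a i • y (n i)) j
      = ∑ i ∈ s, if j = n i then a i else 0 := by
    intro s
    induction s using Finset.induction_on with
    | empty => simp [crd, ev]
    | insert i s hi ih =>
      rw [Finset.sum_insert hi, Finset.sum_insert hi, crd_add, Pi.add_apply, ih, crd_smul, hy]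
      simp
  exact h Finset.univ

theorem spreading (hq : 2 ≤ q) : IsSpreadingModel (Xq q) C₀(ℕ, ℝ) := by
  classical
  have hq1' : 1 ≤ q := by omega
  obtain ⟨y, hy⟩ := exists_seq q hq1'
  refine ⟨y, cz, norm_unit q hq1' y hy, ?_, ?_, czero_dense⟩
  · intro φ hφ hc
    rw [Metric.cauchySeq_iff] at hc
    obtain ⟨N, hN⟩ := hc 1 one_pos
    have h1 := hN N le_rfl (N + 1) (Nat.le_succ N)
    have h2 := dist_unit q hq1' y hy (φ N) (φ (N + 1)) (fun h => by have := hφ.injective h; omega)
    rw [Function.comp_apply, Function.comp_apply, dist_eq_norm] at h1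
    linarith
  · intro k a ε hε
    set g : C₀(ℕ, ℝ) := ∑ i : Fin k, a i • cz i with hg
    have hgval : ∀ j, g j = ∑ i : Fin k, if j = (i : ℕ) then a i else 0 := fun j =>
      czero_sum_apply Finset.univ a (fun i => (i : ℕ)) j
    have hga : ∀ i : Fin k, g i = a i := by
      intro i
      rw [hgval, Finset.sum_eq_single i]
      · simp
      · intro b _ hb
        rw [if_neg]
        intro h
        exact hb (Fin.ext h.symm)
      · simp
    set S : ℝ := ∑ i, |a i| with hS
    have hS0 : 0 ≤ S := Finset.sum_nonneg fun _ _ => abs_nonneg _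
    have hgap : 0 < (‖g‖ + ε / 2) ^ q - ‖g‖ ^ q := by
      have : ‖g‖ ^ q < (‖g‖ + ε / 2) ^ q :=
        pow_lt_pow_left₀ (by linarith) (norm_nonneg _) (by omega)
      linarith
    obtain ⟨N, hN⟩ := exists_nat_gt (S ^ q / ((‖g‖ + ε / 2) ^ q - ‖g‖ ^ q))
    refine ⟨N + 1, ?_⟩
    intro n hn hnN
    set u : Xq q := ∑ i, a i • y (n i) with hu
    have hval : ∀ j, crd q u j = ∑ i, if j = n i then a i else 0 := crd_sum q y hy a n
    have hva : ∀ i : Fin k, crd q u (n i) = a i := by
      intro i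
      rw [hval, Finset.sum_eq_single i]
      · simp
      · intro b _ hb
        rw [if_neg]
        intro h
        exact hb (hn.injective h.symm)
      · simp
    have hvz : ∀ j, (∀ i, j ≠ n i) → crd q u j = 0 := by
      intro j hj
      rw [hval]
      apply Finset.sum_eq_zero
      intro i _
      rw [if_neg (hj i)]
    have hle1 : ‖g‖ ≤ ‖u‖ := by
      rw [czero_norm_le _ _ (norm_nonneg _)]
      intro j
      by_cases hj : j < k
      · have h1 := hga ⟨j, hj⟩
        simp only at h1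
        rw [h1, ← hva ⟨j, hj⟩]
        exact ((norm_le_iff q u _ (norm_nonneg _)).mp le_rfl).abs_le hq1' (norm_nonneg _) _
      · rw [hgval, Finset.sum_eq_zero, abs_zero]
        · exact norm_nonneg _
        · intro i _
          rw [if_neg]
          intro h
          have := i.2
          omega
    have hle2 : ‖u‖ ≤ ‖g‖ + ε / 2 := by
      rw [norm_le_iff q u _ (by positivity)]
      intro C K
      have hest := spread_est q hq (crd q u) (N + 1) (by omega) ‖g‖ S (norm_nonneg _) hS0 (by
        intro j hj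
        apply hvz
        intro i h
        have := hnN i
        omega) (by
        intro j
        by_cases hj : ∃ i, j = n i
        · obtain ⟨i, rfl⟩ := hj
          rw [hva, ← hga]
          exact czero_abs_le g i
        · push Not at hj
          rw [hvz j hj, abs_zero]
          exact norm_nonneg _) (by
        intro t
        calc ∑ j ∈ t, |crd q u j| ≤ ∑ j ∈ t, ∑ i, |if j = n i then a i else 0| := by
              apply Finset.sum_le_sum
              intro j _
              rw [hval]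
              exact Finset.abs_sum_le_sum_abs _ _
          _ = ∑ i, ∑ j ∈ t, |if j = n i then a i else 0| := Finset.sum_comm
          _ ≤ ∑ i, |a i| := by
              apply Finset.sum_le_sum
              intro i _
              calc ∑ j ∈ t, |if j = n i then a i else 0| = ∑ j ∈ t, if j = n i then |a i| else 0 := by
                    apply Finset.sum_congr rfl
                    intro j _
                    split_ifs <;> simp
                _ ≤ |a i| := by
                    rw [Finset.sum_ite_eq']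
                    split_ifs
                    · exact le_rfl
                    · exact abs_nonneg _) C K
      refine hest.trans ?_
      have h2 : S ^ q / ((N + 1 : ℕ) : ℝ) ≤ (‖g‖ + ε / 2) ^ q - ‖g‖ ^ q := by
        rw [div_lt_iff₀ hgap] at hN
        rw [div_le_iff₀ (by positivity)]
        push_cast
        nlinarith
      linarith
    rw [abs_of_nonneg (by linarith)]
    linarith

theorem sepX (hq : 2 ≤ q) (R : ℝ) (hR0 : 0 ≤ R) (hR : 3 ≤ R ^ q) (x : ℕ → Xq q)
    (hx : ∀ n, ‖x n‖ ≤ 1) : sep x ≤ R ∧ symSep x ≤ R := by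
  constructor
  · apply le_of_forall_pos_le_add
    intro η hη
    obtain ⟨n, m, hnm, h⟩ := sep_small q hq R hR0 hR x hx η hη
    exact (sep_le x hnm).trans h
  · apply le_of_forall_pos_le_add
    intro η hη
    obtain ⟨n, m, hnm, h⟩ := sep_small q hq R hR0 hR x hx η hη
    exact (symSep_le x hnm).trans h

end main

theorem czero_kottman : kottman C₀(ℕ, ℝ) = 2 := by
  apply le_antisymm
  · apply kottman_le
    intro x hx
    exact (sep_le x (show (0 : ℕ) ≠ 1 by norm_num)).trans (dist_le_two x hx _ _)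
  · obtain ⟨x, hx, h⟩ := czero_sep
    refine le_trans ?_ (le_csSup kottman_bdd ⟨x, hx, rfl⟩)
    exact le_sep x 2 fun n m hnm => (h n m hnm).1

theorem czero_symKottman : symKottman C₀(ℕ, ℝ) = 2 := by
  apply le_antisymm
  · apply symKottman_le
    intro x hx
    exact (symSep_le x (show (0 : ℕ) ≠ 1 by norm_num)).trans (dist_le_two x hx _ _)
  · obtain ⟨x, hx, h⟩ := czero_sep
    refine le_trans ?_ (le_csSup symKottman_bdd ⟨x, hx, rfl⟩)
    exact le_symSep x 2 fun n m hnm => h n m hnm

/-- Main existence statement. -/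
theorem exists_space (ε : ℝ) (hε : 0 < ε) :
    ∃ (X : Type) (_ : NormedAddCommGroup X) (_ : NormedSpace ℝ X),
      CompleteSpace X ∧ ¬ FiniteDimensional ℝ X ∧ IsSpreadingModel X C₀(ℕ, ℝ) ∧
      kottman X < 1 + ε ∧ symKottman X < 1 + ε := by
  have h1 : (1 : ℝ) < 1 + ε / 2 := by linarith
  obtain ⟨q0, hq0⟩ := pow_unbounded_of_one_lt 3 h1
  set q := max q0 2 with hq
  have hq2 : 2 ≤ q := le_max_right _ _
  have hR : 3 ≤ (1 + ε / 2) ^ q :=
    hq0.le.trans (pow_le_pow_right₀ h1.le (le_max_left _ _))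
  have : Fact (1 ≤ (q : ℝ≥0∞)) := ⟨by exact_mod_cast (by omega : 1 ≤ q)⟩
  obtain ⟨y, hy⟩ := exists_seq q (by omega)
  refine ⟨Xq q, inferInstance, inferInstance, inferInstance, ?_, spreading q hq2, ?_, ?_⟩
  · exact not_finiteDimensional_of_seq y (fun n => (norm_unit q (by omega) y hy n).le)
      (fun n m h => dist_unit q (by omega) y hy n m h)
  · refine lt_of_le_of_lt (kottman_le (1 + ε / 2) ?_) (by linarith)
    intro x hx
    exact (sepX q hq2 (1 + ε / 2) (by positivity) hR x hx).1
  · refine lt_of_le_of_lt (symKottman_le (1 + ε / 2) ?_) (by linarith)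
    intro x hx
    exact (sepX q hq2 (1 + ε / 2) (by positivity) hR x hx).2

theorem czero_not_finiteDimensional : ¬ FiniteDimensional ℝ C₀(ℕ, ℝ) := by
  obtain ⟨x, hx, h⟩ := czero_sep
  exact not_finiteDimensional_of_seq x hx fun n m hnm => by linarith [(h n m hnm).1]

end Pool.Agent.Lib.MP_7f7e2f_an
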